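import Pool.Agent.Y776.Cv.Fix
import Pool.Agent.X255.RH.Loc
import Pool.Agent.X255.RH.Mea3

/-!
# Generalized logarithms along every analytic curve in a split semi-abelian variety, at all roots of almost all polynomials

Let `G = ∏ E_{ty i} × G_m ^ s` be a product of elliptic curves (with lattices `Λ_c`, `c = 1, …, q`, pairwise not isogenous)
and a torus, and `R (z) = exp_G (u_1 (z), …, u_n (z), l_1 (z), …, l_s (z))` ANY analytic curve in `G`, lifted to the Lie
algebra, such that the `u_i` of each type are linearly independent over the complex multiplications modulo constants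
and no nontrivial integral combination of the `l_k` is constant. For a point `R = R (z)` the problem predicts that the
transcendence degree of the field generated by `u_i, ℘ (u_i), ζ (u_i)`, `l_k, exp (l_k)` over the periods is at least
`2 dim B + t`, in general `2 n + s`. We prove this in bounded complexity, jointly for `z` ALL roots of a polynomial (which
gives a point of a power of `G`) for 100% of the integral polynomials of degree `g`, ordered by the maximum `T` of the
absolute values of the coefficients: there are `2 n + s` fixed functions among the `2 s + 3 n` functions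
(the same ones for all `g` and all polynomials) whose values at the roots (at distance at least `1 / (k + 1)`
from the complement of the domain `V`) satisfy no relation whose degree, and the degree of whose coefficient field, is at
most `ω (T)`, and whose coefficients are of size at most `T ^ ω (T)`, where `ω (T) → ∞`; the coefficients may also contain
arbitrary fixed complex numbers, for instance the periods and quasi-periods. We also prove lower bounds, with arbitrary
complex coefficients.

Proof: `Pool.Agent.X255.NP` and `Pool.Agent.Y890.MV` (nonstandard versions of the Bombieri-Pila method), Ax's theorem in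
the form `Pool.Agent.Y776.Cv.fix_sub`, and `Pool.Agent.X255.RH` (independence of functions of different variables;
almost no integral polynomial has close roots).
-/

set_option autoImplicit false

open Polynomial Filter NumberField
open scoped Classical PeriodPair

namespace Pool.Agent.Results.MP_4b482e_nt.AnalyticCurves

/-- The Weierstrass zeta function `ζ(z) = ∑ (1/(z-l) + 1/l + z/l²)`, the sum over the lattice (the summand of `l = 0` is
`1/z`, since `1/0 = 0` in Lean). -/
noncomputable def ζ (L : PeriodPair) (z : ℂ) : ℂ :=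
  ∑' l : L.lattice, (1 / (z - l) + 1 / l + z / l ^ 2)

/-- A curve in the Lie algebra of a product of elliptic curves and a torus, lifted by analytic functions on `V`. -/
structure Curve (V : Set ℂ) {n s q : ℕ} (Λ : Fin q → PeriodPair) (ty : Fin n → Fin q) (u : Fin n → ℂ → ℂ)
    (l : Fin s → ℂ → ℂ) : Prop where
  isOpen : IsOpen V
  isPreconnected : IsPreconnected V
  nonempty : V.Nonempty
  /-- the elliptic curves are pairwise not isogenous -/
  nonisogenous : ∀ c c', c ≠ c' → ∀ α : ℂ, (∀ w ∈ (Λ c).lattice, α * w ∈ (Λ c').lattice) → α = 0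
  analytic_u : ∀ i, AnalyticOnNhd ℂ (u i) V
  u_notMem : ∀ i, ∀ z ∈ V, u i z ∉ (Λ (ty i)).lattice
  /-- the `u_i` of type `c` are independent over the complex multiplications of `Λ_c` modulo constants -/
  independent_u : ∀ (c : Fin q) (a : Fin n → ℂ) (b : ℂ), (∀ i, ∀ w ∈ (Λ c).lattice, a i * w ∈ (Λ c).lattice) →
    (∀ i, ty i ≠ c → a i = 0) → (∀ z ∈ V, ∑ i, a i * u i z = b) → a = 0
  analytic_l : ∀ k, AnalyticOnNhd ℂ (l k) V
  /-- no nontrivial combination with integral coefficients of the `l_k` is constant -/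
  independent_l : ∀ (m : Fin s → ℤ) (b : ℂ), (∀ z ∈ V, ∑ k, (m k : ℂ) * l k z = b) → m = 0

/-- The names of the functions `l_k, exp (l_k)`, `u_i`, `ζ (u_i)`, `℘ (u_i)`. -/
inductive Name (n s : ℕ) : Type
  | l : Fin s → Name n s
  | expl : Fin s → Name n s
  | u : Fin n → Name n s
  | zeta : Fin n → Name n s
  | wp : Fin n → Name n s

/-- The values of the functions at the point `z`. -/
noncomputable def value {n s q : ℕ} (Λ : Fin q → PeriodPair) (ty : Fin n → Fin q) (u : Fin n → ℂ → ℂ)
    (l : Fin s → ℂ → ℂ) (z : ℂ) : Name n s → ℂ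
  | Name.l k => l k z
  | Name.expl k => Complex.exp (l k z)
  | Name.u i => u i z
  | Name.zeta i => ζ (Λ (ty i)) (u i z)
  | Name.wp i => ℘[Λ (ty i)] (u i z)

/-- the polynomial `a_g X ^ g + … + a_0` -/
noncomputable def poly {g : ℕ} (a : Fin (g + 1) → ℤ) : ℂ[X] := ∑ i, C (a i : ℂ) * X ^ (i : ℕ)

/-- the roots of the polynomial in the set `V` -/
noncomputable def rootsIn (V : Set ℂ) {g : ℕ} (a : Fin (g + 1) → ℤ) : Finset ℂ :=
  (poly a).roots.toFinset.filter fun z => z ∈ V

/-- The numbers `x q`, `q ∈ Q`, satisfy no relation of degree at most `k` in each of them with coefficients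
`∑ ξ b * c b`, `b < k`, where the `c b` are integers of a number field of degree at most `k`, all of whose conjugates
are of absolute value at most `T ^ k`, except the relations all of whose coefficients vanish. -/
def Unrelated {Q : Type} [Fintype Q] [DecidableEq Q] (ξ : ℕ → ℂ) (k : ℕ) (T : ℝ) (x : Q → ℂ) : Prop :=
  ∀ (F : Type) [Field F] [NumberField F], Module.finrank ℚ F ≤ k → ∀ (io : F →+* ℂ)
    (c : (Q → Fin (k + 1)) → Fin k → 𝓞 F), (∀ l b (φ : F →+* ℂ), ‖φ (c l b : F)‖ ≤ T ^ k) →
    ∑ l, (∑ b : Fin k, ξ b * io (c l b : F)) * ∏ q, x q ^ (l q : ℕ) = 0 → ∀ l, ∑ b : Fin k, ξ b * io (c l b : F) = 0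

/-- Every polynomial `P` of degree at most `k` in each of the numbers `x q`, with coefficients `∑ ξ b * c b`, `b < k`,
where the `c b` are rational integers of absolute value at most `T ^ k`, satisfies `|P (x)| ≥ T ^ (-B) |p|` for each of
its coefficients `p`. -/
def Measure {Q : Type} [Fintype Q] [DecidableEq Q] (ξ : ℕ → ℂ) (k : ℕ) (B T : ℝ) (x : Q → ℂ) : Prop :=
  ∀ c : (Q → Fin (k + 1)) → Fin k → ℤ, (∀ l b, |(c l b : ℝ)| ≤ T ^ k) → ∀ l₀,
    T ^ (-B) * ‖∑ b : Fin k, ξ b * (c l₀ b : ℂ)‖ ≤
      ‖∑ l, (∑ b : Fin k, ξ b * (c l b : ℂ)) * ∏ q, x q ^ (l q : ℕ)‖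

/-- the `a` with `|a_i| ≤ T` -/
noncomputable def box (g T : ℕ) : Finset (Fin (g + 1) → ℤ) := Fintype.piFinset fun _ => Finset.Icc (-(T : ℤ)) T

/-- the points whose distance to the complement of `V` is at least `1 / (k + 1)` -/
def region (V : Set ℂ) (k : ℕ) : Set ℂ := {z | Metric.ball z (1 / ((k : ℝ) + 1)) ⊆ V}

/-- the values of the chosen functions at all roots of `a` in the set `K` -/
noncomputable def numbers {g n s q m : ℕ} (K : Set ℂ) (Λ : Fin q → PeriodPair) (ty : Fin n → Fin q)
    (u : Fin n → ℂ → ℂ) (l : Fin s → ℂ → ℂ) (e : Fin m → Name n s)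
    (a : Fin (g + 1) → ℤ) (x : {z // z ∈ rootsIn K a} × Fin m) : ℂ :=
  value Λ ty u l x.1 (e x.2)

/-- `a` is of degree `g`, with simple roots, and the numbers at the roots in `region V k` are unrelated -/
def Good {g n s q m : ℕ} (V : Set ℂ) (Λ : Fin q → PeriodPair) (ty : Fin n → Fin q) (u : Fin n → ℂ → ℂ) (l : Fin s → ℂ → ℂ)
    (e : Fin m → Name n s) (ξ : ℕ → ℂ) (k : ℕ) (T : ℝ) (a : Fin (g + 1) → ℤ) : Prop :=
  a (Fin.last g) ≠ 0 ∧ (poly a).Separable ∧ Unrelated ξ k T (numbers (region V k) Λ ty u l e a)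

/-- `a` is of degree `g`, with simple roots, and the numbers at the roots in `region V k` satisfy the lower bounds -/
def GoodM {g n s q m : ℕ} (V : Set ℂ) (Λ : Fin q → PeriodPair) (ty : Fin n → Fin q) (u : Fin n → ℂ → ℂ) (l : Fin s → ℂ → ℂ)
    (e : Fin m → Name n s) (ξ : ℕ → ℂ) (k : ℕ) (B T : ℝ) (a : Fin (g + 1) → ℤ) : Prop :=
  a (Fin.last g) ≠ 0 ∧ (poly a).Separable ∧ Measure ξ k B T (numbers (region V k) Λ ty u l e a)

/-- `a` is of degree `g`, its roots are simple, of absolute value at most `R`, at distance at least `η` from each other,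
and the roots in `V` are at distance at least `η` from the complement of `V` -/
def Position (V : Set ℂ) (R η : ℝ) {g : ℕ} (a : Fin (g + 1) → ℤ) : Prop :=
  a (Fin.last g) ≠ 0 ∧ (poly a).Separable ∧ ∀ z, (poly a).eval z = 0 → ‖z‖ ≤ R ∧
    (∀ w, (poly a).eval w = 0 → w ≠ z → η ≤ ‖z - w‖) ∧ (z ∈ V → Metric.ball z η ⊆ V)

/-- the names -/
def nm {n s : ℕ} : Pool.Agent.Y776.Cv.Nf n s → Name n s :=
  Sum.elim Name.l (Sum.elim Name.expl (Sum.elim Name.u (Sum.elim Name.zeta Name.wp)))

theorem nm_inj {n s : ℕ} : Function.Injective (nm (n := n) (s := s)) := by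
  rintro (i | i | i | i | i) (j | j | j | j | j) h <;> simp_all [nm]

theorem value_nm {n s q : ℕ} (Λ : Fin q → PeriodPair) (ty : Fin n → Fin q) (u : Fin n → ℂ → ℂ)
    (l : Fin s → ℂ → ℂ) (z : ℂ) (i : Pool.Agent.Y776.Cv.Nf n s) :
    Pool.Agent.Y776.Cv.yf Λ ty u l i z = value Λ ty u l z (nm i) := by
  rcases i with i | i | i | i | i <;> rfl

theorem choice_exists {n s q : ℕ} (hns : 0 < s + n) {V : Set ℂ} {Λ : Fin q → PeriodPair} {ty : Fin n → Fin q}
    {u : Fin n → ℂ → ℂ} {l : Fin s → ℂ → ℂ} (hc : Curve V Λ ty u l) :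
    ∃ e : Fin (s + 2 * n) → Name n s, Function.Injective e ∧
      (∀ w, AnalyticOnNhd ℂ (fun z => value Λ ty u l z (e w)) V) ∧
      Pool.Agent.X255.RH.Indep V (fun w z => value Λ ty u l z (e w)) := by
  have hF : Pool.Agent.Y776.Cv.FxM V Λ ty u l :=
    { isOpen := hc.isOpen
      conn := hc.isPreconnected
      ni := hc.nonisogenous
      ua := hc.analytic_u
      un := hc.u_notMem
      ui := fun c a b h1 h2 h3 => hc.independent_u c a b h1 h2 h3
      la := hc.analytic_l
      li := hc.independent_l }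
  obtain ⟨e, he, hloc⟩ := Pool.Agent.Y776.Cv.fix_sub hF hns hc.nonempty
  have h2 : (fun k => Pool.Agent.Y776.Cv.yf Λ ty u l (e k)) = fun w z => value Λ ty u l z (nm (e w)) := by
    funext w z
    exact value_nm Λ ty u l z (e w)
  refine ⟨fun w => nm (e w), fun w w' h => he (nm_inj h), fun w => ?_, ?_⟩
  · have h3 := Pool.Agent.Y776.Cv.yf_an hF (e w)
    rw [congrFun h2 w] at h3
    exact h3
  · refine Pool.Agent.X255.RH.indep_of_loc hc.isOpen hc.nonempty fun t ht => ?_
    have h1 := hloc t ht
    rw [h2] at h1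
    exact h1

/-- **Theorem.** Let `R (z)` be a curve as in `Curve`. For a certain choice of `2 n + s` of the functions `l_k`, `exp (l_k)`, `u_i`,
`ζ (u_i)`, `℘ (u_i)` and all `g ≥ 1` the following holds.
(1) For every sequence `ξ` there is a monotone `ω`, `ω(T) → ∞`, such that the proportion of the polynomials with
`|a_i| ≤ T` which are not `Good` with `k = ω(T)` is at most `1 / ω(T)`.
(2) For every `k ≥ 1` there are `B` and `T₀` such that for `T ≥ T₀` and all `ξ` (which may depend on `T`) the proportion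
of the polynomials with `|a_i| ≤ T` which are not `GoodM` is at most `1 / k`.
(3) For fixed `k ≥ 1`, `R`, `η > 0` and `ε > 0` there are `B`, `C` such that for all `ξ` the lower bounds
`Measure ξ k B T` for the numbers at the roots in `V` hold for all but `C T ^ (g + ε)` of the polynomials with
`|a_i| ≤ T` whose roots are in the compact position `Position V R η` (there are about `(2 T) ^ (g + 1)` polynomials).
The choice `e` of `2 n + s` among the `3 n + 2 s` functions depends only on the curve, not on `g`. -/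
theorem result (n s q : ℕ) (hns : 0 < s + n) (V : Set ℂ) 
    (Λ : Fin q → PeriodPair) (ty : Fin n → Fin q) (u : Fin n → ℂ → ℂ) (l : Fin s → ℂ → ℂ) (hc : Curve V Λ ty u l) :
    ∃ e : Fin (s + 2 * n) → Name n s, Function.Injective e ∧ ∀ g : ℕ, 0 < g →
    ((∀ ξ : ℕ → ℂ, ∃ ω : ℕ → ℕ, Tendsto ω atTop atTop ∧ Monotone ω ∧ ∀ T,
      ω T * ((box g T).filter fun a => ¬ Good V Λ ty u l e ξ (ω T) T a).card ≤ (box g T).card) ∧
    (∀ k : ℕ, 1 ≤ k → ∃ (B : ℝ) (T₀ : ℕ), ∀ T : ℕ, T₀ ≤ T → ∀ ξ : ℕ → ℂ,
      (k : ℝ) * ((box g T).filter fun a => ¬ GoodM V Λ ty u l e ξ k B T a).card ≤ (box g T).card) ∧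
    (∀ (k : ℕ) (R η ε : ℝ), 1 ≤ k → 0 < η → 0 < ε → ∃ B C : ℝ, ∀ T : ℕ, 1 ≤ T → ∀ ξ : ℕ → ℂ,
      (((box g T).filter fun a => Position V R η a ∧ ¬ Measure ξ k B T (numbers V Λ ty u l e a)).card : ℝ) ≤
        C * (T : ℝ) ^ ((g : ℝ) + ε))) := by
  have hop : IsOpen V := hc.isOpen
  have hpre : IsPreconnected V := hc.isPreconnected
  obtain ⟨e, he, han, hind⟩ := choice_exists hns hc
  refine ⟨e, he, fun g hg => ?_⟩

  refine ⟨fun ξ => ?_, fun k hk => ?_, fun k R η ε hk hη hε => ?_⟩
  · exact Pool.Agent.X255.RH.main_all (g := g) hg hpre hop (region V) (Pool.Agent.X255.RH.tame_deep V) han hind ξ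
  · exact Pool.Agent.X255.RH.mea_all (g := g) hg hpre hop (Pool.Agent.X255.RH.tame_deep V k) han hind k hk
  · exact Pool.Agent.X255.RH.mea_eps (g := g) hg hpre hop han hind V k R η ε hη hε

end Pool.Agent.Results.MP_4b482e_nt.AnalyticCurves
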