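import Pool.Agent.X39.Near.MasterI
import Pool.Agent.X255.RH.Prim

/-!
# Generalised logarithms at ALL algebraic points of curves close to any point outside a set of dimension zero

Let `G` be an extension of an abelian variety by a torus, and `x ↦ R (x) ∈ G` a curve in `G` whose coordinates are
algebraic functions of `x`. The components `∫ ω_i`, `∫ η_i`, `∫ ξ_k` of the generalised logarithm of `R (x)` are analytic
functions `f_1, …, f_n` on a connected open set `V`, and their derivatives are algebraic functions: they are abelian
integrals of the three kinds. We consider all systems of functions `f_i` with algebraic derivatives no nontrivial linear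
combination of which is algebraic. If everything is defined over the algebraic numbers the problem asks whether, outside of
special points, the numbers `f_i (x)` at an algebraic `x` are algebraically independent over the field generated by the
periods. Outside ONE set of complex numbers `x` of Hausdorff dimension `0`, for all number fields `F ⊂ ℂ`, all
`ω > 0`, `d` and `A` there are `B` and `T₁` such that for all `T ≥ T₁` and ALL `t ∈ F` of height at most `T` with
`|t - x| ≤ T ^ (-ω)` the numbers `f_1 (t), …, f_n (t)` satisfy no relation of degree at most `d` with coefficients which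
are polynomials of degree at most `d` in the `u_k(t) / w(t)` and in given complex numbers `ξ_i` (for instance the periods
`Ω_G` and the coordinates of any further points), with coefficients in `F` of height at most `T ^ A`, not even up to
`T ^ (-B)`. In particular this holds at the convergents of all irrational real numbers in `V` outside this set, from some
point on.
-/

set_option autoImplicit false

open Polynomial MeasureTheory NumberField

namespace Pool.Agent.Results.MP_4b482e_nt.ApproximationsOfAllNumbers

open Pool.Agent.X39.Near (Size Dependent)

/-- `f` is algebraic over `ℂ(x)` on `V` -/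
def AlgebraicOn (V : Set ℂ) (f : ℂ → ℂ) : Prop :=
  ∃ Q : ℂ[X][X], Q ≠ 0 ∧ ∀ x ∈ V, Q.evalEval x (f x) = 0

/-- `f_1, …, f_n` are analytic functions on the connected open set `V`, their derivatives are algebraic, and no
nontrivial complex linear combination of them is algebraic -/
structure AbelianIntegrals (V : Set ℂ) {n : ℕ} (f : Fin n → ℂ → ℂ) : Prop where
  isOpen : IsOpen V
  isPreconnected : IsPreconnected V
  nonempty : V.Nonempty
  analytic : ∀ i, AnalyticOnNhd ℂ (f i) V
  deriv_algebraic : ∀ i, AlgebraicOn V (deriv (f i))
  independent : ∀ c : Fin n → ℂ, AlgebraicOn V (fun x => ∑ i, c i * f i x) → c = 0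

/-- **Theorem.** Let `f_1, …, f_n` be abelian integrals on `V`, linearly independent modulo algebraic functions; let `u_k`,
`w` be complex polynomials, `w` without zeros on `V`, and `ξ_1, …, ξ_g` complex numbers. There is a set `E` of complex numbers of Hausdorff dimension `0` such that: (1) for all `x ∈ V` outside `E`, all
number fields `F` with an embedding `ι` in `ℂ`, all `d`, `A` and `ω > 0` there are `B`, `T₁` such that for all
`T ≥ T₁` and all `t ∈ F`, quotients of integers with conjugates at most `T`, with `|ι t - x| ≤ T ^ (-ω)`, the
values of these functions at `t` are not dependent; (2) for all irrational real `x ∈ V` outside `E` and all `d`,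
`A` there is `B` such that the values at the convergents `t` of `x` are not dependent over `ℚ`, at the level of
the denominator, from some point on. -/
theorem result {n q g : ℕ} (V : Set ℂ) (f : Fin n → ℂ → ℂ) (hf : AbelianIntegrals V f)
    (u : Fin q → Polynomial ℂ) (w : Polynomial ℂ) (hw : ∀ t ∈ V, w.eval t ≠ 0) (ξ : Fin g → ℂ) :
    ∃ E : Set ℂ, dimH E = 0 ∧
      (∀ x ∈ V, x ∉ E → ∀ (F : Type) [Field F] [NumberField F] (ι : F →+* ℂ)
        (d A : ℕ) (ω : ℝ), 0 < ω → ∃ B T₁ : ℝ, ∀ T : ℝ, T₁ ≤ T → ∀ t : F, Size F T t →
          ‖ι t - x‖ ≤ T ^ (-ω) → ¬ Dependent f u w ξ F ι d A B T t) ∧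
      ∀ x : ℝ, Irrational x → (x : ℂ) ∈ V → (x : ℂ) ∉ E → ∀ d A : ℕ, ∃ (B : ℝ) (n₀ : ℕ), ∀ k : ℕ,
        n₀ ≤ k → ¬ Dependent f u w ξ ℚ (algebraMap ℚ ℂ) d A B (x.convergent k).den
          (x.convergent k) := by
  have hind : Pool.Agent.X255.RH.Indep V f :=
    Pool.Agent.X255.RH.prim_indep hf.isPreconnected hf.isOpen hf.nonempty hf.analytic
      (fun i => by
        obtain ⟨Q, hQ, h⟩ := hf.deriv_algebraic i
        exact ⟨Q, hQ, fun x hx => by rw [eval₂_evalRingHom]; exact h x hx⟩)
      (fun c h => hf.independent c (by
        obtain ⟨Q, hQ, h⟩ := h
        exact ⟨Q, hQ, fun x hx => by rw [← eval₂_evalRingHom]; exact h x hx⟩))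
  exact Pool.Agent.X39.Near.master_indep V hf.isOpen hf.isPreconnected f hf.analytic hind u w hw ξ

end Pool.Agent.Results.MP_4b482e_nt.ApproximationsOfAllNumbers
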