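import Pool.Agent.X255.RH.Loc
import Pool.Agent.X255.RH.Prim

/-!
# Generalised logarithms at almost all algebraic points of curves in semi-abelian varieties, jointly for all conjugates

Let `G` be an extension of an abelian variety by a torus, and `x ↦ R (x) ∈ G` a curve in `G` whose coordinates are
algebraic functions of `x`. The components `∫ ω_i`, `∫ η_i`, `∫ ξ_k` of the generalised logarithm of `R (x)` are analytic
functions `f_1, …, f_n` on a connected open set `V`, and their derivatives are algebraic functions: they are abelian
integrals of the three kinds. We consider all systems of functions `f_i` with algebraic derivatives no nontrivial linear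
combination of which is algebraic; for the components of the generalised logarithm this is a condition on the curve and
on `G` (it holds if the curve is in sufficiently general position in `G` and its universal extension). If everything is
defined over the algebraic numbers the problem asks whether, outside of special points, the numbers `f_i (x)` at an
algebraic `x`, also jointly for several `x`, are algebraically independent over the field generated by the periods.

We prove for 100% of the integral polynomials of degree `g`, ordered by the maximum `T` of the absolute values of the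
coefficients, that the numbers `f_i (x)` at all roots `x` of the polynomial in `V` (at distance at least `1 / (ω (T) + 1)`
from the complement of `V`) satisfy no relation whose degree, and the degree of whose coefficient field, is at most
`ω (T)`, and whose coefficients are of size at most `T ^ ω (T)`, where `ω (T) → ∞`; the coefficients may also contain
arbitrary fixed complex numbers `ξ_b`, for instance the monomials in the periods `Ω_G` and in the coordinates of any
further points.

Proof: `Pool.Agent.X255.NP` (the norm to `ℚ` of a relation over the field generated by all roots, a nonstandard version of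
the Bombieri-Pila method), Ostrowski's theorem in the differential field of germs of analytic functions
(`Pool.Agent.W253.LF`, `Pool.Agent.W924.LF`; `Pool.Agent.X255.RH.Prim`), and `Pool.Agent.X255.RH` (independence of
functions of different variables; almost no integral polynomial has close roots).
-/

set_option autoImplicit false

open Polynomial Filter NumberField
open scoped Classical

namespace Pool.Agent.Results.MP_4b482e_nt.ConjugateGeneralizedLogarithms

/-- `f` is algebraic over `ℂ(x)` on `V` -/
def AlgebraicOn (V : Set ℂ) (f : ℂ → ℂ) : Prop :=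
  ∃ Q : ℂ[X][X], Q ≠ 0 ∧ ∀ x ∈ V, Q.evalEval x (f x) = 0

/-- `f_1, …, f_n` are analytic functions on the connected open set `V`, their derivatives are algebraic, and no
nontrivial complex linear combination of them is algebraic -/
structure AbelianIntegrals (V : Set ℂ) {n : ℕ} (f : Fin n → ℂ → ℂ) : Prop where
  isOpen : IsOpen V
  isPreconnected : IsPreconnected V
  nonempty : V.Nonempty
  analytic : ∀ i, AnalyticOnNhd ℂ (f i) V
  deriv_algebraic : ∀ i, AlgebraicOn V (deriv (f i))
  independent : ∀ c : Fin n → ℂ, AlgebraicOn V (fun x => ∑ i, c i * f i x) → c = 0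

/-- the polynomial `a_g X ^ g + … + a_0` -/
noncomputable def poly {g : ℕ} (a : Fin (g + 1) → ℤ) : ℂ[X] := ∑ i, C (a i : ℂ) * X ^ (i : ℕ)

/-- the roots of the polynomial in the set `V` -/
noncomputable def rootsIn (V : Set ℂ) {g : ℕ} (a : Fin (g + 1) → ℤ) : Finset ℂ :=
  (poly a).roots.toFinset.filter fun z => z ∈ V

/-- The numbers `x q`, `q ∈ Q`, satisfy no relation of degree at most `k` in each of them with coefficients
`∑ ξ b * c b`, `b < k`, where the `c b` are integers of a number field of degree at most `k`, all of whose conjugates
are of absolute value at most `T ^ k`, except the relations all of whose coefficients vanish. -/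
def Unrelated {Q : Type} [Fintype Q] [DecidableEq Q] (ξ : ℕ → ℂ) (k : ℕ) (T : ℝ) (x : Q → ℂ) : Prop :=
  ∀ (F : Type) [Field F] [NumberField F], Module.finrank ℚ F ≤ k → ∀ (io : F →+* ℂ)
    (c : (Q → Fin (k + 1)) → Fin k → 𝓞 F), (∀ l b (φ : F →+* ℂ), ‖φ (c l b : F)‖ ≤ T ^ k) →
    ∑ l, (∑ b : Fin k, ξ b * io (c l b : F)) * ∏ q, x q ^ (l q : ℕ) = 0 → ∀ l, ∑ b : Fin k, ξ b * io (c l b : F) = 0

/-- the `a` with `|a_i| ≤ T` -/
noncomputable def box (g T : ℕ) : Finset (Fin (g + 1) → ℤ) := Fintype.piFinset fun _ => Finset.Icc (-(T : ℤ)) T

/-- the points whose distance to the complement of `V` is at least `1 / (k + 1)` -/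
def region (V : Set ℂ) (k : ℕ) : Set ℂ := {z | Metric.ball z (1 / ((k : ℝ) + 1)) ⊆ V}

/-- the numbers `f_i (x)`, `x` all roots of `a` in the set `V`, are unrelated up to complexity `k` -/
def Free {g n : ℕ} (V : Set ℂ) (f : Fin n → ℂ → ℂ) (ξ : ℕ → ℂ) (k : ℕ) (T : ℝ) (a : Fin (g + 1) → ℤ) : Prop :=
  Unrelated ξ k T fun q : {z // z ∈ rootsIn V a} × Fin n => f q.2 q.1

/-- `a` is of degree `g`, with simple roots, and `Free` for the roots in `region V k` -/
def Good {g n : ℕ} (V : Set ℂ) (f : Fin n → ℂ → ℂ) (ξ : ℕ → ℂ) (k : ℕ) (T : ℝ) (a : Fin (g + 1) → ℤ) : Prop :=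
  a (Fin.last g) ≠ 0 ∧ (poly a).Separable ∧ Free (region V k) f ξ k T a

/-- `a` is of degree `g`, its roots are simple, of absolute value at most `R`, at distance at least `η` from each other,
and the roots in `V` are at distance at least `η` from the complement of `V` -/
def Position (V : Set ℂ) (R η : ℝ) {g : ℕ} (a : Fin (g + 1) → ℤ) : Prop :=
  a (Fin.last g) ≠ 0 ∧ (poly a).Separable ∧ ∀ z, (poly a).eval z = 0 → ‖z‖ ≤ R ∧
    (∀ w, (poly a).eval w = 0 → w ≠ z → η ≤ ‖z - w‖) ∧ (z ∈ V → Metric.ball z η ⊆ V)


/-- **Theorem.** Let `g ≥ 1`, `f_1, …, f_n` abelian integrals on `V`, linearly independent modulo algebraic functions, and let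
`ξ` be a sequence of complex numbers.
(1) There is a monotone `ω`, `ω(T) → ∞`, such that the proportion of the polynomials with `|a_i| ≤ T` which are not
`Good` with `k = ω(T)` is at most `1 / ω(T)`.
(2) For fixed `k`, `R`, `η > 0` and `ε > 0`, all but `C T ^ (g + ε)` of the polynomials with `|a_i| ≤ T` whose roots
are in the compact position `Position V R η` are `Free` for the roots in `V` (there are about `(2 T) ^ (g + 1)`
polynomials). -/
theorem result (g n : ℕ) (hg : 0 < g) (V : Set ℂ) (f : Fin n → ℂ → ℂ) (hf : AbelianIntegrals V f) (ξ : ℕ → ℂ) :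
    (∃ ω : ℕ → ℕ, Tendsto ω atTop atTop ∧ Monotone ω ∧ ∀ T,
      ω T * ((box g T).filter fun a => ¬ Good V f ξ (ω T) T a).card ≤ (box g T).card) ∧
    ∀ (k : ℕ) (R η ε : ℝ), 0 < η → 0 < ε → ∃ C : ℝ, ∀ T : ℕ, 1 ≤ T →
      (((box g T).filter fun a => Position V R η a ∧ ¬ Free V f ξ k T a).card : ℝ) ≤
        C * (T : ℝ) ^ ((g : ℝ) + ε) := by
  have hpre : IsPreconnected V := hf.isPreconnected
  have hop : IsOpen V := hf.isOpen
  have han : ∀ w : Fin n, AnalyticOnNhd ℂ (fun z => f w z) V := hf.analytic
  have hind : Pool.Agent.X255.RH.Indep V (fun (w : Fin n) z => f w z) :=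
    Pool.Agent.X255.RH.prim_indep hpre hop hf.nonempty hf.analytic
      (fun i => by
        obtain ⟨Q, hQ, h⟩ := hf.deriv_algebraic i
        exact ⟨Q, hQ, fun x hx => by rw [eval₂_evalRingHom]; exact h x hx⟩)
      (fun c h => hf.independent c (by
        obtain ⟨Q, hQ, h⟩ := h
        exact ⟨Q, hQ, fun x hx => by rw [← eval₂_evalRingHom]; exact h x hx⟩))
  have h1 := Pool.Agent.X255.RH.main_all (g := g) hg hpre hop (region V) (Pool.Agent.X255.RH.tame_deep V) han hind ξ
  refine ⟨h1, fun k R η ε hη hε => ?_⟩
  have h2 := Pool.Agent.X255.RH.main_eps (g := g) hg hpre hop han hind V ξ k R η ε hη hε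
  exact h2

end Pool.Agent.Results.MP_4b482e_nt.ConjugateGeneralizedLogarithms
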