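import Pool.Agent.Results.MP_4b482e_nt.PolynomialsInLogs
import Pool.Agent.X174.WinRat

/-!
# Exponentials of polynomials in logarithms of ALL rational numbers in cubes around thin sequences

Let `[a, b] ⊂ (0, ∞)`, `n ≥ 1`, `d`, `A ≥ 0`, let `Q_1, …, Q_M` be real polynomials in `s` such that `c_0 s + ∑ c_k Q_k` is
not constant for integers `c_0, …, c_M` not all zero, and let `β > 2 - 2 / ((d + 1)^((M + 1) n + 1) + 1)`. There is `B` such
that for every sequence `v ≥ 1` of exponent of convergence at most `τ` (for `v_i = i ^ a` this is `1 / a`, for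
`v_i = b ^ i` it is `0`) and `ρ < 1`, outside a set of `α ∈ ℝ^(2n)` of Hausdorff dimension at most
`(2 (n - 1) + β + τ) / (1 - ρ)`, for all but finitely many `i` and ALL rational numbers `x_j ∈ [a, b]` with numerators and
denominators in the cube with centre `α v_i` and side `2 v_i ^ ρ`, no nonzero integral polynomial of degree at most `d` in
each variable and with coefficients at most `v_i ^ A` takes at the `n (M + 1) + 1` numbers `π`, `log x_j`,
`exp (Q_k (log x_j))` a value of absolute value at most `v_i ^ (-B)`.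

The number of exceptions is from the starting result `PolynomialsInLogs`.
-/

set_option autoImplicit false

namespace Pool.Agent.Results.MP_4b482e_nt.PointsInCubes

/-- the exponent of convergence of the sequence `v` is at most `τ` -/
def ExpLe (v : ℕ → ℝ) (τ : ℝ) : Prop := ∀ t : ℝ, τ < t → Summable (fun n : ℕ => (v n) ^ (-t))

open PolynomialsInLogs (numbers)

/-- **Theorem.** Let `[a, b] ⊂ (0, ∞)`, `n ≥ 1`, `d`, `A ≥ 0`, let `Q_1, …, Q_M` be real polynomials in `s` such that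
`c_0 s + ∑ c_k Q_k` is not constant for integers `c_0, …, c_M` not all zero, and let
`β > 2 - 2 / ((d + 1)^((M + 1) n + 1) + 1)`. There is `B` such that for every sequence `v ≥ 1` of exponent of convergence at
most `τ ≥ 0` and every `ρ < 1` there is a set `E ⊂ ℝ^(2n)` of Hausdorff dimension at most
`(2 (n - 1) + β + τ) / (1 - ρ)` such that for each `α` outside `E`, for all but finitely many `i`: for ALL rational
`q_j ∈ [a, b]` whose numerators differ from `α_(j,0) v_i` and whose denominators differ from `α_(j,1) v_i` by at most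
`v_i ^ ρ`, every nonzero integral polynomial of degree at most `d` in each variable with coefficients at most `v_i ^ A`
takes at the `n (M + 1) + 1` numbers `π`, `log q_j`, `exp (Q_k (log q_j))` a value of absolute value larger than
`v_i ^ (-B)`. The sequences `v_i = (i + 1) ^ a` and `v_i = b ^ i` have exponent of convergence at most `1 / a` and `0`. -/
theorem result :
    (∀ (M n d : ℕ), 1 ≤ n → ∀ Q : Fin M → Polynomial ℝ,
      (∀ (c0 : ℤ) (c : Fin M → ℤ),
        (Polynomial.C (c0 : ℝ) * Polynomial.X + ∑ k, Polynomial.C (c k : ℝ) * Q k).natDegree = 0 → c0 = 0 ∧ c = 0) →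
      ∀ A a b β : ℝ, 0 ≤ A → 0 < a → a < b →
      2 - 2 / (((d : ℝ) + 1) ^ ((M + 1) * n + 1) + 1) < β →
      ∃ B : ℝ, ∀ (v : ℕ → ℝ) (τ ρ : ℝ), (∀ i, 1 ≤ v i) → 0 ≤ τ → ExpLe v τ → ρ < 1 →
      ∃ E : Set (Fin n × Fin 2 → ℝ), dimH E ≤ ENNReal.ofReal ((2 * ((n : ℝ) - 1) + β + τ) / (1 - ρ)) ∧
        ∀ α : Fin n × Fin 2 → ℝ, α ∉ E → ∃ i₀ : ℕ, ∀ i : ℕ, i₀ ≤ i →
          ∀ q : Fin n → ℚ, (∀ j, (q j : ℝ) ∈ Set.Icc a b) →
            (∀ j, |((q j).num : ℝ) - α (j, 0) * v i| ≤ (v i) ^ ρ ∧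
              |((q j).den : ℝ) - α (j, 1) * v i| ≤ (v i) ^ ρ) →
            ∀ P : MvPolynomial (Option (Fin n × Option (Fin M))) ℤ, P ≠ 0 → (∀ x, P.degreeOf x ≤ d) →
              (∀ s, |((P.coeff s : ℤ) : ℝ)| ≤ (v i) ^ A) →
              (v i) ^ (-B) < |MvPolynomial.aeval (numbers Q q) P|) ∧
    (∀ a : ℝ, 0 < a → ExpLe (fun n : ℕ => ((n : ℝ) + 1) ^ a) (1 / a)) ∧
    (∀ b : ℝ, 1 < b → ExpLe (fun n : ℕ => b ^ n) 0) := by
  refine ⟨fun M n d hn Q hQ A a b β hA ha hab hβ => ?_, fun κ hκ => Pool.Agent.Y854.GM.expLe_pow κ hκ,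
    fun b hb => Pool.Agent.Y854.GM.expLe_geom b hb⟩
  obtain ⟨B0, C, h⟩ := PolynomialsInLogs.result M n d hn Q hQ A a b β hA ha hab hβ
  have hn1 : (1 : ℝ) ≤ n := by exact_mod_cast hn
  have hβ0 : 0 ≤ 2 * ((n : ℝ) - 1) + β := by
    have h1 : 2 / (((d : ℝ) + 1) ^ ((M + 1) * n + 1) + 1) ≤ 1 := by
      rw [div_le_one (by positivity)]
      have h2 : (1 : ℝ) ≤ ((d : ℝ) + 1) ^ ((M + 1) * n + 1) := one_le_pow₀ (by linarith [(Nat.cast_nonneg d : (0 : ℝ) ≤ d)])
      linarith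
    linarith
  refine ⟨max B0 0 + 1, fun v τ ρ hv hτ hE hρ => ?_⟩
  obtain ⟨E, hE1, hE2⟩ := Pool.Agent.X174.winFam (κ := Fin n × Fin 2) (Q := Fin n → ℚ) (Pool.Agent.X174.numDen)
    (fun T => PolynomialsInLogs.Exceptional n d Q a b A B0 T) hβ0 h hv hτ hE hρ
  refine ⟨E, hE1, fun α hα => ?_⟩
  obtain ⟨R, hR, hRc⟩ := Pool.Agent.X174.le_of_cube α
  obtain ⟨i₁, hi₁⟩ := hE2 α hα R hR
  have hvp : ∀ i, 0 < v i := fun i => lt_of_lt_of_le one_pos (hv i)
  obtain ⟨i₂, hi₂⟩ := Pool.Agent.X174.small_of_small (Pool.Agent.Y854.GM.tendsto_of_expLe hvp hτ hE) hv R hR B0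
  refine ⟨max i₁ i₂, fun i hi q hq hcube P hP hdeg hcoef => ?_⟩
  have hcube' : ∀ x, |Pool.Agent.X174.numDen q x - α x * v i| ≤ (v i) ^ ρ := by
    rintro ⟨j, e⟩
    obtain ⟨h1, h2⟩ := hcube j
    fin_cases e
    · rw [← Pool.Agent.X174.numDen_zero] at h1
      exact h1
    · rw [← Pool.Agent.X174.numDen_one] at h2
      exact h2
  by_contra hcon
  push Not at hcon
  apply hi₁ i ((le_max_left _ _).trans hi) q hcube'
  have hR1 : (1 : ℝ) ≤ R := by exact_mod_cast hR
  have hle : v i ≤ R * v i := by nlinarith [hvp i]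
  refine ⟨fun j => ?_, P, hP, hdeg, fun s => (hcoef s).trans (Real.rpow_le_rpow (hvp i).le hle hA),
    hcon.trans (hi₂ i ((le_max_right _ _).trans hi))⟩
  have h3 := hRc (Pool.Agent.X174.numDen q) (v i) ρ (hv i) hρ hcube' (j, 1)
  rw [Pool.Agent.X174.numDen_one, abs_of_nonneg (Nat.cast_nonneg _)] at h3
  exact ⟨hq j, h3⟩

end Pool.Agent.Results.MP_4b482e_nt.PointsInCubes
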